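import Pool.Agent.Helper69.HG.Stm

/-!
# Hall gaps, block RD: the resonator with all tuples is the resonator plus a polynomial over non-squarefree numbers
-/

open Finset MeasureTheory
open scoped ArithmeticFunction.Moebius

namespace Pool.Agent.Helper54.HG

open Pool.Agent.Helper69.HG

/-- the primes of index `2..32` up to `T` -/
noncomputable def PP (T : ℝ) : Finset ℕ :=
  (Finset.Icc 1 ⌊T⌋₊).filter (fun p => p.Prime ∧ 2 ≤ ixp T p ∧ ixp T p ≤ 32)

/-- the tuples with product `n` -/
noncomputable def SS (T : ℝ) (k n : ℕ) : Finset (Fin k → ℕ) :=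
  (Fintype.piFinset (fun _ : Fin k => PP T)).filter (fun p => ∏ j, p j = n)

/-- the coefficient of `n` in `RF` -/
noncomputable def cn (T : ℝ) (n : ℕ) : ℝ :=
  ∑ k ∈ Finset.range 33, (kp ^ k / k.factorial) * ∑ p ∈ SS T k n, (Qz (∑ j, ixp T (p j)) : ℝ)

theorem mem_SS {T : ℝ} {k n : ℕ} {p : Fin k → ℕ} :
    p ∈ SS T k n ↔ (∀ j, p j ∈ PP T) ∧ ∏ j, p j = n := by
  unfold SS
  rw [Finset.mem_filter, Fintype.mem_piFinset]

theorem mem_PP {T : ℝ} {p : ℕ} :
    p ∈ PP T ↔ (1 ≤ p ∧ p ≤ ⌊T⌋₊) ∧ p.Prime ∧ 2 ≤ ixp T p ∧ ixp T p ≤ 32 := by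
  unfold PP
  rw [Finset.mem_filter, Finset.mem_Icc]

theorem Qz_zero {N : ℕ} (h : 64 < N) : Qz N = 0 := by
  unfold Qz
  rw [List.getD_eq_default]
  have h1 : QL.length = 65 := by decide
  omega

theorem Qz_bound (N : ℕ) : |(Qz N : ℝ)| ≤ 1000000 := by
  by_cases h : 64 < N
  · rw [Qz_zero h]
    norm_num
  · have h1 : |Qz N| ≤ 1000000 := by
      have h2 : ∀ N ∈ Finset.range 65, |Qz N| ≤ 1000000 := by decide
      exact h2 N (Finset.mem_range.2 (by omega))
    exact_mod_cast h1

/-- powers of natural numbers: products -/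
theorem cpow_prod (s : ℂ) {ι : Type*} (S : Finset ι) (f : ι → ℕ) :
    ((∏ j ∈ S, f j : ℕ) : ℂ) ^ s = ∏ j ∈ S, (f j : ℂ) ^ s := by
  classical
  induction S using Finset.induction_on with
  | empty => simp
  | insert a S ha ih =>
    rw [Finset.prod_insert ha, Finset.prod_insert ha, ← ih, Nat.cast_mul,
      Complex.natCast_mul_natCast_cpow]

/-- the primes of index at most `32` are at most `T` -/
theorem le_of_ixp {T : ℝ} (hT : 1 < T) {p i : ℕ} (hp : 0 < p) (h : ixp T p ≤ i) :
    (p : ℝ) ≤ T ^ ((i : ℝ) / 160) := by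
  have hL : 0 < Real.log T := Real.log_pos hT
  have h1 : 160 * Real.log p / Real.log T ≤ i := by
    refine (Nat.le_ceil _).trans ?_
    exact_mod_cast h
  have h2 : Real.log p ≤ (i : ℝ) / 160 * Real.log T := by
    rw [div_le_iff₀ hL] at h1
    linarith
  have h3 : (0 : ℝ) < p := by exact_mod_cast hp
  rw [← Real.log_le_log_iff h3 (Real.rpow_pos_of_pos (by linarith) _), Real.log_rpow (by linarith)]
  exact h2

theorem mem_PP_of {T : ℝ} (hT : 1 < T) {p : ℕ} (hp : p.Prime) (h1 : 2 ≤ ixp T p)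
    (h2 : ixp T p ≤ 32) : p ∈ PP T := by
  refine mem_PP.2 ⟨⟨hp.one_lt.le, ?_⟩, hp, h1, h2⟩
  refine Nat.le_floor ((le_of_ixp hT hp.pos h2).trans ?_)
  have h3 : T ^ (((32 : ℕ) : ℝ) / 160) ≤ T ^ (1 : ℝ) :=
    Real.rpow_le_rpow_of_exponent_le hT.le (by norm_num)
  rwa [Real.rpow_one] at h3

/-- the product of a tuple of total index at most `64` -/
theorem prod_le {T : ℝ} (hT : 1 < T) {k : ℕ} {p : Fin k → ℕ} (hp : ∀ j, p j ∈ PP T)
    (h : ∑ j, ixp T (p j) ≤ 64) : ∏ j, p j ≤ XR T := by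
  unfold XR
  refine Nat.le_floor ?_
  rw [Nat.cast_prod]
  have h1 : ∏ j, (p j : ℝ) ≤ ∏ j, T ^ ((ixp T (p j) : ℝ) / 160) :=
    Finset.prod_le_prod (fun j _ => by positivity) fun j _ =>
      le_of_ixp hT (mem_PP.1 (hp j)).1.1 le_rfl
  refine h1.trans ?_
  rw [← Real.rpow_sum_of_pos (by linarith), ← Finset.sum_div]
  refine Real.rpow_le_rpow_of_exponent_le hT.le ?_
  have h2 : (∑ j, (ixp T (p j) : ℝ)) ≤ 64 := by exact_mod_cast h
  linarith

theorem prod_pos {T : ℝ} {k : ℕ} {p : Fin k → ℕ} (hp : ∀ j, p j ∈ PP T) : 1 ≤ ∏ j, p j :=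
  Nat.succ_le_of_lt (Finset.prod_pos fun j _ => (mem_PP.1 (hp j)).1.1)

/-- the sum over the tuples of primes -/
theorem tuple_sum (T t : ℝ) (k : ℕ) :
    (∑ i ∈ Fintype.piFinset (fun _ : Fin k => Finset.Icc 2 32), (Qz (∑ j, i j) : ℂ) *
      ∏ j, Pb T (i j) t) =
    ∑ p ∈ Fintype.piFinset (fun _ : Fin k => PP T), (Qz (∑ j, ixp T (p j)) : ℂ) *
      ((∏ j, p j : ℕ) : ℂ) ^ (-(1 / 2 + Complex.I * t) : ℂ) := by
  classical
  have hmaps : ∀ p ∈ Fintype.piFinset (fun _ : Fin k => PP T), (fun j => ixp T (p j)) ∈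
      Fintype.piFinset (fun _ : Fin k => Finset.Icc 2 32) := by
    intro p hp
    rw [Fintype.mem_piFinset] at hp ⊢
    intro j
    have h1 := (mem_PP.1 (hp j)).2.2
    rw [Finset.mem_Icc]
    exact h1
  rw [← Finset.sum_fiberwise_of_maps_to hmaps]
  refine Finset.sum_congr rfl fun i hi => ?_
  rw [Fintype.mem_piFinset] at hi
  unfold Pb
  rw [Finset.prod_univ_sum, Finset.mul_sum]
  have hset : (Fintype.piFinset (fun _ : Fin k => PP T)).filter (fun p => (fun j => ixp T (p j)) = i) =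
      Fintype.piFinset (fun j => (Finset.Icc 1 ⌊T⌋₊).filter (fun p => p.Prime ∧ ixp T p = i j)) := by
    ext p
    rw [Finset.mem_filter, Fintype.mem_piFinset, Fintype.mem_piFinset]
    constructor
    · rintro ⟨h1, h2⟩ j
      have h3 := mem_PP.1 (h1 j)
      rw [Finset.mem_filter, Finset.mem_Icc]
      exact ⟨h3.1, h3.2.1, congrFun h2 j⟩
    · intro h1
      refine ⟨fun j => ?_, funext fun j => ?_⟩
      · have h3 := h1 j
        rw [Finset.mem_filter, Finset.mem_Icc] at h3
        have h4 := Finset.mem_Icc.1 (hi j)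
        exact mem_PP.2 ⟨h3.1, h3.2.1, by rw [h3.2.2]; exact h4.1, by rw [h3.2.2]; exact h4.2⟩
      · have h3 := h1 j
        rw [Finset.mem_filter] at h3
        exact h3.2.2
  rw [hset]
  refine Finset.sum_congr rfl fun p hp => ?_
  have hp' : ∀ j, ixp T (p j) = i j := by
    rw [Fintype.mem_piFinset] at hp
    intro j
    exact (Finset.mem_filter.1 (hp j)).2.2
  rw [cpow_prod]
  congr 2
  simp only [hp']

/-- **The expansion of `RF`.** -/
theorem RF_eq {T : ℝ} (hT : 1 < T) (t : ℝ) : RF T t = DP (XR T) (fun n => (cn T n : ℂ)) t := by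
  classical
  unfold RF DP cn
  have h1 : ∀ k ∈ Finset.range 33,
      ((kp ^ k / k.factorial : ℝ) : ℂ) *
        ∑ i ∈ Fintype.piFinset (fun _ : Fin k => Finset.Icc 2 32), (Qz (∑ j, i j) : ℂ) * ∏ j, Pb T (i j) t =
      ∑ N ∈ Finset.Icc 1 (XR T), ((kp ^ k / k.factorial : ℝ) : ℂ) *
        (∑ p ∈ SS T k N, ((Qz (∑ j, ixp T (p j)) : ℝ) : ℂ)) * (N : ℂ) ^ (-(1 / 2 + Complex.I * t) : ℂ) := by
    intro k _
    rw [tuple_sum]
    have h2 : ∑ p ∈ Fintype.piFinset (fun _ : Fin k => PP T), (Qz (∑ j, ixp T (p j)) : ℂ) *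
        ((∏ j, p j : ℕ) : ℂ) ^ (-(1 / 2 + Complex.I * t) : ℂ) =
        ∑ p ∈ (Fintype.piFinset (fun _ : Fin k => PP T)).filter (fun p => ∏ j, p j ≤ XR T),
          (Qz (∑ j, ixp T (p j)) : ℂ) * ((∏ j, p j : ℕ) : ℂ) ^ (-(1 / 2 + Complex.I * t) : ℂ) := by
      symm
      refine Finset.sum_subset (Finset.filter_subset _ _) fun p hp hp2 => ?_
      have h3 : 64 < ∑ j, ixp T (p j) := by
        by_contra h4
        apply hp2
        rw [Finset.mem_filter]
        exact ⟨hp, prod_le hT (Fintype.mem_piFinset.1 hp) (not_lt.1 h4)⟩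
      rw [Qz_zero h3]
      simp
    have hmaps : ∀ p ∈ (Fintype.piFinset (fun _ : Fin k => PP T)).filter (fun p => ∏ j, p j ≤ XR T),
        (∏ j, p j) ∈ Finset.Icc 1 (XR T) := by
      intro p hp
      rw [Finset.mem_filter] at hp
      exact Finset.mem_Icc.2 ⟨prod_pos (Fintype.mem_piFinset.1 hp.1), hp.2⟩
    rw [h2, ← Finset.sum_fiberwise_of_maps_to hmaps, Finset.mul_sum]
    refine Finset.sum_congr rfl fun N hN => ?_
    rw [mul_assoc, Finset.sum_mul]
    congr 1
    have h3 : ((Fintype.piFinset (fun _ : Fin k => PP T)).filter (fun p => ∏ j, p j ≤ XR T)).filter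
        (fun p => ∏ j, p j = N) = SS T k N := by
      ext p
      rw [Finset.mem_filter, Finset.mem_filter, SS, Finset.mem_filter]
      constructor
      · rintro ⟨⟨h4, -⟩, h5⟩
        exact ⟨h4, h5⟩
      · rintro ⟨h4, h5⟩
        exact ⟨⟨h4, by rw [h5]; exact (Finset.mem_Icc.1 hN).2⟩, h5⟩
    rw [h3]
    refine Finset.sum_congr rfl fun p hp => ?_
    rw [(mem_SS.1 hp).2]
    push_cast
    rfl
  rw [Finset.sum_congr rfl h1, Finset.sum_comm]
  refine Finset.sum_congr rfl fun N _ => ?_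
  rw [← Finset.sum_mul]
  congr 1
  push_cast
  rfl

/-- the prime factors of the product of a tuple -/
theorem primeFactors_SS {T : ℝ} {k n : ℕ} {p : Fin k → ℕ} (hp : p ∈ SS T k n) :
    n.primeFactors = Finset.univ.image p := by
  obtain ⟨h1, h2⟩ := mem_SS.1 hp
  ext q
  rw [Finset.mem_image, ← h2, Nat.mem_primeFactors]
  constructor
  · rintro ⟨hq, hqd, -⟩
    obtain ⟨j, -, hj⟩ := (Prime.dvd_finsetProd_iff hq.prime _).1 hqd
    exact ⟨j, Finset.mem_univ _, ((Nat.prime_dvd_prime_iff_eq hq (mem_PP.1 (h1 j)).2.1).1 hj).symm⟩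
  · rintro ⟨j, -, rfl⟩
    exact ⟨(mem_PP.1 (h1 j)).2.1, Finset.dvd_prod_of_mem _ (Finset.mem_univ j),
      Nat.one_le_iff_ne_zero.1 (prod_pos h1)⟩

theorem inj_SS {T : ℝ} {k n : ℕ} (hn : Squarefree n) {p : Fin k → ℕ} (hp : p ∈ SS T k n) :
    Function.Injective p := by
  obtain ⟨h1, h2⟩ := mem_SS.1 hp
  intro i j hij
  by_contra hne
  have h3 : p i * p i ∣ n := by
    rw [← h2]
    have h4 : p i * p j ∣ ∏ l, p l := by
      rw [← Finset.mul_prod_erase Finset.univ p (Finset.mem_univ i)]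
      refine mul_dvd_mul_left _ (Finset.dvd_prod_of_mem _ ?_)
      exact Finset.mem_erase.2 ⟨fun h => hne h.symm, Finset.mem_univ _⟩
    rwa [← hij] at h4
  have h4 := hn _ h3
  have h5 := (mem_PP.1 (h1 i)).2.1
  exact h5.not_isUnit h4

/-- the number of tuples for squarefree `n` -/
theorem card_SS {T : ℝ} {n : ℕ} (hn : Squarefree n) (h : ∀ p ∈ n.primeFactors, p ∈ PP T) :
    (SS T n.primeFactors.card n).card = n.primeFactors.card.factorial := by
  classical
  let F : (Fin n.primeFactors.card ≃ n.primeFactors) → (Fin n.primeFactors.card → ℕ) :=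
    fun e j => (e j : ℕ)
  have hF : Function.Injective F := by
    intro e e' hee
    ext j
    exact congrFun hee j
  have hS : SS T n.primeFactors.card n = Finset.univ.image F := by
    ext p
    rw [Finset.mem_image]
    constructor
    · intro hp
      have h1 := primeFactors_SS hp
      have h2 := inj_SS hn hp
      have h3 : ∀ j, p j ∈ n.primeFactors := fun j => by
        rw [h1]
        exact Finset.mem_image_of_mem _ (Finset.mem_univ j)
      refine ⟨Equiv.ofBijective (fun j => ⟨p j, h3 j⟩) ⟨?_, ?_⟩, Finset.mem_univ _, ?_⟩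
      · intro i j hij
        exact h2 (congrArg Subtype.val hij)
      · rintro ⟨q, hq⟩
        rw [h1, Finset.mem_image] at hq
        obtain ⟨j, -, hj⟩ := hq
        exact ⟨j, Subtype.ext hj⟩
      · rfl
    · rintro ⟨e, -, rfl⟩
      refine mem_SS.2 ⟨fun j => h _ (e j).2, ?_⟩
      have h1 : ∏ j, F e j = ∏ q : n.primeFactors, (q : ℕ) := Equiv.prod_comp e (fun q => (q : ℕ))
      rw [h1, Finset.prod_coe_sort n.primeFactors (fun q => q)]
      exact Nat.prod_primeFactors_of_squarefree hn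
  rw [hS, Finset.card_image_of_injective _ hF, Finset.card_univ, Fintype.card_equiv
    (Fintype.equivOfCardEq (by simp)), Fintype.card_fin]

theorem cn_squarefree {T : ℝ} (hT : 1 < T) {n : ℕ} (hn : Squarefree n) : cn T n = rr T n := by
  classical
  unfold rr
  by_cases h : ∀ p ∈ n.primeFactors, 2 ≤ ixp T p ∧ ixp T p ≤ 32
  · rw [if_pos ⟨hn, h⟩]
    have hP : ∀ p ∈ n.primeFactors, p ∈ PP T := fun p hp =>
      mem_PP_of hT (Nat.prime_of_mem_primeFactors hp) (h p hp).1 (h p hp).2
    have hix : ∀ {k : ℕ} {p : Fin k → ℕ}, p ∈ SS T k n → ∑ j, ixp T (p j) = ix T n := by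
      intro k p hp
      unfold ix
      rw [primeFactors_SS hp, Finset.sum_image fun i _ j _ hij => inj_SS hn hp hij]
    have hcard : ∀ {k : ℕ} {p : Fin k → ℕ}, p ∈ SS T k n → k = n.primeFactors.card := by
      intro k p hp
      rw [primeFactors_SS hp, Finset.card_image_of_injective _ (inj_SS hn hp), Finset.card_univ,
        Fintype.card_fin]
    have hterm : ∀ k, ∑ p ∈ SS T k n, (Qz (∑ j, ixp T (p j)) : ℝ) =
        if k = n.primeFactors.card then (k.factorial : ℝ) * Qz (ix T n) else 0 := by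
      intro k
      split_ifs with hk
      · subst hk
        rw [Finset.sum_congr rfl (fun p hp => by rw [hix hp]), Finset.sum_const, card_SS hn hP,
          nsmul_eq_mul]
      · refine Finset.sum_eq_zero fun p hp => ?_
        exact absurd (hcard hp) hk
    unfold cn
    simp only [hterm, mul_ite, mul_zero]
    rw [Finset.sum_ite_eq' (Finset.range 33)]
    by_cases hk : n.primeFactors.card ∈ Finset.range 33
    · rw [if_pos hk]
      have h1 : (n.primeFactors.card.factorial : ℝ) ≠ 0 := by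
        exact_mod_cast Nat.factorial_ne_zero _
      field_simp
    · rw [if_neg hk]
      have h1 : 33 ≤ n.primeFactors.card := by
        rw [Finset.mem_range] at hk
        omega
      have h2 : 64 < ix T n := by
        unfold ix
        have h3 : ∑ _p ∈ n.primeFactors, 2 ≤ ∑ p ∈ n.primeFactors, ixp T p :=
          Finset.sum_le_sum fun p hp => (h p hp).1
        rw [Finset.sum_const, smul_eq_mul] at h3
        omega
      rw [Qz_zero h2]
      simp
  · rw [if_neg fun h1 => h h1.2]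
    unfold cn
    refine Finset.sum_eq_zero fun k _ => ?_
    rw [Finset.sum_eq_zero fun p hp => ?_, mul_zero]
    exfalso
    apply h
    intro q hq
    rw [primeFactors_SS hp, Finset.mem_image] at hq
    obtain ⟨j, -, rfl⟩ := hq
    exact (mem_PP.1 ((mem_SS.1 hp).1 j)).2.2

theorem card_SS_le (T : ℝ) (k n : ℕ) : (SS T k n).card ≤ k ^ k := by
  classical
  rcases (SS T k n).eq_empty_or_nonempty with h | ⟨p₀, hp₀⟩
  · rw [h, Finset.card_empty]
    exact Nat.zero_le _
  · have h1 : n.primeFactors.card ≤ k := by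
      rw [primeFactors_SS hp₀]
      refine Finset.card_image_le.trans ?_
      rw [Finset.card_univ, Fintype.card_fin]
    have h2 : SS T k n ⊆ Fintype.piFinset (fun _ : Fin k => n.primeFactors) := by
      intro p hp
      rw [Fintype.mem_piFinset]
      intro j
      rw [primeFactors_SS hp]
      exact Finset.mem_image_of_mem _ (Finset.mem_univ j)
    refine (Finset.card_le_card h2).trans ?_
    rw [Fintype.card_piFinset, Finset.prod_const, Finset.card_univ, Fintype.card_fin]
    exact Nat.pow_le_pow_left h1 k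

/-- the bound for the coefficients -/
noncomputable def CR : ℝ := ∑ k ∈ Finset.range 33, (kp ^ k / k.factorial) * ((k : ℝ) ^ k * 1000000)

theorem kp_pos : 0 < kp := by
  unfold kp
  norm_num

theorem CR_nonneg : 0 ≤ CR := by
  have := kp_pos
  exact Finset.sum_nonneg fun k _ => by positivity

theorem cn_bound (T : ℝ) (n : ℕ) : |cn T n| ≤ CR := by
  unfold cn CR
  refine (Finset.abs_sum_le_sum_abs _ _).trans (Finset.sum_le_sum fun k _ => ?_)
  have h1 : 0 ≤ kp ^ k / (k.factorial : ℝ) := by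
    have := kp_pos
    positivity
  rw [abs_mul, abs_of_nonneg h1]
  refine mul_le_mul_of_nonneg_left ?_ h1
  refine (Finset.abs_sum_le_sum_abs _ _).trans ?_
  refine (Finset.sum_le_sum fun p _ => Qz_bound _).trans ?_
  rw [Finset.sum_const, nsmul_eq_mul]
  have h2 : ((SS T k n).card : ℝ) ≤ (k : ℝ) ^ k := by exact_mod_cast card_SS_le T k n
  exact mul_le_mul_of_nonneg_right h2 (by norm_num)

/-- **Block RD.** -/
theorem rd : RD := by
  classical
  refine ⟨CR + 1, 2, by linarith [CR_nonneg], fun T hT => ?_⟩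
  have hT1 : 1 < T := by linarith
  refine ⟨fun n => if Squarefree n then 0 else (cn T n : ℂ), fun n => ?_, fun n hn => ?_, fun t => ?_⟩
  · simp only
    split_ifs with h
    · rw [norm_zero]
      linarith [CR_nonneg]
    · rw [Complex.norm_real, Real.norm_eq_abs]
      linarith [cn_bound T n]
  · simp only at hn
    have hsq : ¬ Squarefree n := by
      intro h
      rw [if_pos h] at hn
      exact hn rfl
    rw [if_neg hsq] at hn
    have hcn : cn T n ≠ 0 := fun h => hn (by rw [h]; simp)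
    obtain ⟨k, p, hp⟩ : ∃ k, ∃ p, p ∈ SS T k n := by
      by_contra hcon
      push Not at hcon
      apply hcn
      unfold cn
      refine Finset.sum_eq_zero fun k _ => ?_
      rw [Finset.sum_eq_zero fun p hp => absurd hp (hcon k p), mul_zero]
    refine ⟨?_, hsq, fun q hq => ?_⟩
    · have h1 := prod_pos (mem_SS.1 hp).1
      rw [(mem_SS.1 hp).2] at h1
      omega
    · rw [primeFactors_SS hp, Finset.mem_image] at hq
      obtain ⟨j, -, rfl⟩ := hq
      exact (mem_PP.1 ((mem_SS.1 hp).1 j)).2.2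
  · rw [RF_eq hT1]
    unfold DP
    refine Finset.sum_congr rfl fun N _ => ?_
    congr 1
    by_cases h : Squarefree N
    · simp only
      rw [if_pos h, add_zero, cn_squarefree hT1 h]
    · simp only
      have h1 : rr T N = 0 := by
        unfold rr
        rw [if_neg fun h2 => h h2.1]
      rw [if_neg h, h1]
      simp

end Pool.Agent.Helper54.HG
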